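import Pool.Agent.MTN.Stmts2

/-! MTN, module PID: countably many sets of density zero are contained, up to the elements of small
house, in one set of density zero. -/

set_option autoImplicit false

namespace Pool.Agent.MTN.H10

open NumberField Pool.Agent.HIK

theorem finite_house (k : Type) [Field k] [NumberField k] (X : ℝ) :
    {a : 𝓞 k | house (a : k) ≤ X}.Finite := by
  have h := NumberField.Embeddings.finite_of_norm_le k ℂ X
  refine Set.Finite.of_finite_image (f := fun a : 𝓞 k => (a : k)) (h.subset ?_) ?_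
  · rintro _ ⟨a, ha, rfl⟩
    exact ⟨a.2, fun φ => (norm_embedding_le_house (a : k) φ).trans ha⟩
  · intro a _ b _ hab
    exact RingOfIntegers.ext hab

theorem pid (hD : DzcStmt) : PidStmt := by
  intro k _ _ S hS
  obtain ⟨-, hun, -, hcrit⟩ := hD k
  let U : ℕ → Set (𝓞 k) := fun l => ⋃ i : Fin (l + 1), S i
  have hU : ∀ l, DZ k (U l) := fun l => hun (Fin (l + 1)) (fun i => S i) (fun i => hS i)
  have hM : ∀ l : ℕ, ∃ M : ℕ, ∀ X : ℕ, M ≤ X →
      (Nat.card {a : 𝓞 k // a ∈ U l ∧ house (a : k) ≤ X} : ℝ) /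
        (X : ℝ) ^ Module.finrank ℚ k < 1 / ((l : ℝ) + 1) := by
    intro l
    have h1 : (0 : ℝ) < 1 / ((l : ℝ) + 1) := by positivity
    have h2 := (hU l).eventually_lt_const h1
    exact Filter.eventually_atTop.1 h2
  choose M hM using hM
  let N : ℕ → ℕ := fun l => ∑ i ∈ Finset.range (l + 1), (M i + 1)
  have hN1 : ∀ l, M l + 1 ≤ N l := fun l =>
    Finset.single_le_sum (f := fun i => M i + 1) (fun _ _ => Nat.zero_le _)
      (Finset.mem_range.2 (Nat.lt_succ_self l))
  have hNs : ∀ l, N l < N (l + 1) := by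
    intro l
    have h1 : N (l + 1) = N l + (M (l + 1) + 1) := Finset.sum_range_succ _ _
    omega
  have hNm : StrictMono N := strictMono_nat_of_lt_succ hNs
  have hNl : ∀ l, l + 1 ≤ N l := by
    intro l
    induction l with
    | zero => exact le_trans (by omega) (hN1 0)
    | succ l ih => exact Nat.succ_le_of_lt (lt_of_le_of_lt ih (hNs l))
  refine ⟨{a | ∃ l, a ∈ S l ∧ (N l : ℝ) ≤ house (a : k)}, N, ?_, fun l a ha hl => ⟨l, ha, hl⟩⟩
  refine hcrit _ ?_
  intro ε hε
  obtain ⟨L, hL⟩ := exists_nat_one_div_lt hε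
  refine ⟨N L, fun X hX => ?_⟩
  let l := Nat.findGreatest (fun l => N l ≤ X) X
  have hLX : L ≤ X := le_trans (Nat.le_succ L) ((hNl L).trans hX)
  have hl1 : N l ≤ X := Nat.findGreatest_spec (P := fun l => N l ≤ X) hLX hX
  have hl2 : L ≤ l := Nat.le_findGreatest hLX hX
  have hl3 : ∀ i, N i ≤ X → i ≤ l := by
    intro i hi
    exact Nat.le_findGreatest (le_trans (Nat.le_succ i) ((hNl i).trans hi)) hi
  have hfin : Finite {a : 𝓞 k // a ∈ U l ∧ house (a : k) ≤ X} :=
    ((finite_house k X).subset (fun a (ha : a ∈ U l ∧ house (a : k) ≤ X) => ha.2)).to_subtype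
  have hcard : Nat.card {a : 𝓞 k // a ∈ {a | ∃ l, a ∈ S l ∧ (N l : ℝ) ≤ house (a : k)} ∧
      house (a : k) ≤ X} ≤ Nat.card {a : 𝓞 k // a ∈ U l ∧ house (a : k) ≤ X} := by
    refine Nat.card_le_card_of_injective (fun a => ⟨a.1, ?_, a.2.2⟩) ?_
    · obtain ⟨i, hi, hi2⟩ := a.2.1
      have h3 : N i ≤ X := by
        have h4 : (N i : ℝ) ≤ X := hi2.trans a.2.2
        exact_mod_cast h4
      exact Set.mem_iUnion.2 ⟨⟨i, Nat.lt_succ_of_le (hl3 i h3)⟩, hi⟩
    · intro a b hab
      have h := congrArg (fun z : {a : 𝓞 k // a ∈ U l ∧ house (a : k) ≤ X} => z.1) hab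
      exact Subtype.ext h
  have hX0 : (0 : ℝ) < (X : ℝ) := by
    have h5 : 0 < X := lt_of_lt_of_le (Nat.succ_pos L) ((hNl L).trans hX)
    exact_mod_cast h5
  have hMX : M l ≤ X := le_trans (Nat.le_succ _) ((hN1 l).trans hl1)
  have h6 := hM l X hMX
  rw [div_lt_iff₀ (pow_pos hX0 _)] at h6
  have h7 : 1 / ((l : ℝ) + 1) ≤ ε := by
    refine le_trans ?_ hL.le
    refine one_div_le_one_div_of_le (by positivity) ?_
    have h8 : (L : ℝ) ≤ l := by exact_mod_cast hl2
    linarith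
  have h9 : (Nat.card {a : 𝓞 k // a ∈ {a | ∃ l, a ∈ S l ∧ (N l : ℝ) ≤ house (a : k)} ∧
      house (a : k) ≤ X} : ℝ) ≤ Nat.card {a : 𝓞 k // a ∈ U l ∧ house (a : k) ≤ X} := by
    exact_mod_cast hcard
  refine h9.trans (h6.le.trans ?_)
  exact mul_le_mul_of_nonneg_right h7 (pow_pos hX0 _).le

end Pool.Agent.MTN.H10
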